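import Mathlib

/-!
# Set disjointness: the space-time trade-off for locally computed words

The conjectured trade-off `S = N ^ 2 / (T ^ 2 * polylog)` is proved for all data structures in which
every memory word depends on all but few sets only through short sketches of these sets. The idea: if
all other sets are fixed, then a query `(i, j)` is a protocol between a party that knows the set number
`i` and a party that knows the set number `j`; if all words were simple for this pair, it would decide
disjointness with too little communication (fooling set of the pairs of complementary sets).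
-/

set_option autoImplicit false

namespace Pool.Agent.Results.MP_90de28_lc.LocalWords

open Finset

/-- A data structure for families of `M` sets with elements in `Fin u`, in the cell probe model: a
memory of `S` words with values in `Fin W`, which may depend in any way on the input, and for every
query `(i, j)` the address of the next word, which may depend on the words read before, and the
answer. -/
structure DataStructure (M u S W : ℕ) where
  mem : (Fin M → Finset (Fin u)) → Fin S → Fin W
  probe : Fin M → Fin M → List (Fin W) → Fin S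
  out : Fin M → Fin M → List (Fin W) → Bool

variable {M u S W : ℕ}

/-- the first `t` words that the query `(i, j)` reads on the input `F`, the last one first -/
def DataStructure.read (D : DataStructure M u S W) (F : Fin M → Finset (Fin u)) (i j : Fin M) :
    ℕ → List (Fin W)
  | 0 => []
  | t + 1 => D.mem F (D.probe i j (D.read F i j t)) :: D.read F i j t

/-- `D` solves SetDisjointness for all inputs of total size `N`, every query reads `T` words. -/
def DataStructure.Solves (D : DataStructure M u S W) (N T : ℕ) : Prop :=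
  ∀ F : Fin M → Finset (Fin u), ∑ i, (F i).card = N → ∀ i j : Fin M,
    (D.out i j (D.read F i j T) = true ↔ Disjoint (F i) (F j))

/-- the input `F` with the sets number `i` and `j` replaced by `X` and `Y` -/
def replace (F : Fin M → Finset (Fin u)) (i j : Fin M) (X Y : Finset (Fin u)) :
    Fin M → Finset (Fin u) :=
  Function.update (Function.update F i X) j Y

/-- The word `c` is `K`-simple for the pair `i, j` at the input `F`: when the sets number `i` and `j`
of `F` are replaced by sets `X`, `Y` of the same sizes, the word `c` is a function of `(X, Y)` such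
that all pairs `(X, Y)` are covered by `K` combinatorial rectangles on each of which it is constant. (This
holds if the word can be computed with `k` bits of communication, `K = 2 ^ k`, by one party that knows
`X` and another one that knows `Y`, both knowing the other sets.) -/
def DataStructure.Simple (D : DataStructure M u S W) (F : Fin M → Finset (Fin u)) (i j : Fin M)
    (c : Fin S) (K : ℕ) : Prop :=
  ∃ A B : Fin K → Set (Finset (Fin u)),
    (∀ X Y, X.card = (F i).card → Y.card = (F j).card → ∃ l, X ∈ A l ∧ Y ∈ B l) ∧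
    ∀ l, ∀ X ∈ A l, ∀ X' ∈ A l, ∀ Y ∈ B l, ∀ Y' ∈ B l,
      X.card = (F i).card → X'.card = (F i).card → Y.card = (F j).card → Y'.card = (F j).card →
      D.mem (replace F i j X Y) c = D.mem (replace F i j X' Y') c

/-- At the sizes `z` of the sets the word `c` depends on all but `r` sets only through sketches of `k`
bits of these sets: there is a set `R` of at most `r` indices and for every index `i` a sketch `h i` of
`k` bits such that the word `c` is determined by the sets number `i ∈ R` and the sketches of the sets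
number `i ∉ R`. -/
def DataStructure.Local (D : DataStructure M u S W) (z : Fin M → ℕ) (c : Fin S) (r k : ℕ) : Prop :=
  ∃ (R : Finset (Fin M)) (h : Fin M → Finset (Fin u) → Fin (2 ^ k)), R.card ≤ r ∧
    ∀ F G : Fin M → Finset (Fin u), (∀ i, (F i).card = z i) → (∀ i, (G i).card = z i) →
      (∀ i ∈ R, F i = G i) → (∀ i, i ∉ R → h i (F i) = h i (G i)) → D.mem F c = D.mem G c

theorem replace_left (F : Fin M → Finset (Fin u)) {i j : Fin M} (hij : i ≠ j)
    (X Y : Finset (Fin u)) : replace F i j X Y i = X := by
  simp [replace, Function.update_of_ne hij]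

theorem replace_right (F : Fin M → Finset (Fin u)) (i j : Fin M)
    (X Y : Finset (Fin u)) : replace F i j X Y j = Y := by
  simp [replace]

theorem replace_of_ne (F : Fin M → Finset (Fin u)) {i j l : Fin M} (hi : l ≠ i) (hj : l ≠ j)
    (X Y : Finset (Fin u)) : replace F i j X Y l = F l := by
  simp [replace, Function.update_of_ne hi, Function.update_of_ne hj]

theorem card_replace (F : Fin M → Finset (Fin u)) {i j : Fin M} (hij : i ≠ j)
    {X Y : Finset (Fin u)} (hX : X.card = (F i).card) (hY : Y.card = (F j).card) (l : Fin M) :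
    (replace F i j X Y l).card = (F l).card := by
  by_cases hj : l = j
  · subst hj; rw [replace_right, hY]
  by_cases hi : l = i
  · subst hi; rw [replace_left F hij, hX]
  · rw [replace_of_ne F hi hj]

theorem sum_card_replace (F : Fin M → Finset (Fin u)) {i j : Fin M} (hij : i ≠ j)
    {X Y : Finset (Fin u)} (hX : X.card = (F i).card) (hY : Y.card = (F j).card) :
    ∑ l, (replace F i j X Y l).card = ∑ l, (F l).card :=
  Finset.sum_congr rfl fun l _ => card_replace F hij hX hY l

/-- Every pair is entangled in some word, whatever the other sets are. -/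
theorem entangled (D : DataStructure M u S W) {N T : ℕ} (hD : D.Solves N T)
    (F : Fin M → Finset (Fin u)) (hF : ∑ i, (F i).card = N) {i j : Fin M} (hij : i ≠ j) {s K : ℕ}
    (hi : (F i).card = s) (hj : (F j).card = s) (hu : 2 * s ≤ u)
    (hK : K ^ T < Nat.choose (2 * s) s) : ∃ c : Fin S, ¬ D.Simple F i j c K := by
  classical
  by_contra hcon
  push Not at hcon
  choose A B hcov hconst using hcon
  obtain ⟨Q, -, hQ⟩ := Finset.exists_subset_card_eq
    (s := (Finset.univ : Finset (Fin u))) (n := 2 * s) (by simpa using hu)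
  have hP1 : ∀ X : {X // X ∈ Finset.powersetCard s Q}, X.1.card = (F i).card := fun X => by
    rw [hi]; exact (Finset.mem_powersetCard.1 X.2).2
  have hP2 : ∀ X : {X // X ∈ Finset.powersetCard s Q}, (Q \ X.1).card = (F j).card := fun X => by
    rw [hj, Finset.card_sdiff_of_subset (Finset.mem_powersetCard.1 X.2).1, hQ,
      (Finset.mem_powersetCard.1 X.2).2]
    omega
  let inp : Finset (Fin u) → Finset (Fin u) → Fin M → Finset (Fin u) :=
    fun X Y => replace F i j X (Q \ Y)
  let cell : {X // X ∈ Finset.powersetCard s Q} → ℕ → Fin S :=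
    fun X t => D.probe i j (D.read (inp X.1 X.1) i j t)
  have hlab : ∀ (X : {X // X ∈ Finset.powersetCard s Q}) (t : Fin T),
      ∃ l, X.1 ∈ A (cell X t) l ∧ Q \ X.1 ∈ B (cell X t) l :=
    fun X t => hcov (cell X t) X.1 (Q \ X.1) (hP1 X) (hP2 X)
  choose lab hlabA hlabB using hlab
  have hinj : Function.Injective lab := by
    intro X Y hXY
    have key : ∀ t : ℕ, t ≤ T → D.read (inp X.1 X.1) i j t = D.read (inp Y.1 Y.1) i j t ∧
        D.read (inp X.1 Y.1) i j t = D.read (inp X.1 X.1) i j t := by
      intro t
      induction t with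
      | zero => intro _; exact ⟨rfl, rfl⟩
      | succ t ih =>
        intro ht
        obtain ⟨h1, h2⟩ := ih (by omega)
        have hc : cell Y t = cell X t := by
          simp only [cell]; rw [h1]
        have hl : lab Y ⟨t, ht⟩ = lab X ⟨t, ht⟩ := by rw [hXY]
        have a1 := hlabA X ⟨t, ht⟩
        have b1 := hlabB X ⟨t, ht⟩
        have a2 := hlabA Y ⟨t, ht⟩
        have b2 := hlabB Y ⟨t, ht⟩
        simp only at a1 b1 a2 b2
        rw [hc, hl] at a2 b2
        have e1 := hconst (cell X t) _ _ a1 _ a2 _ b1 _ b2 (hP1 X) (hP1 Y) (hP2 X) (hP2 Y)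
        have e2 := hconst (cell X t) _ _ a1 _ a1 _ b2 _ b1 (hP1 X) (hP1 X) (hP2 Y) (hP2 X)
        constructor
        · change D.mem (inp X.1 X.1) (cell X t) :: D.read (inp X.1 X.1) i j t =
            D.mem (inp Y.1 Y.1) (cell Y t) :: D.read (inp Y.1 Y.1) i j t
          rw [hc, h1]
          exact congrArg (· :: _) e1
        · change D.mem (inp X.1 Y.1) (D.probe i j (D.read (inp X.1 Y.1) i j t)) ::
            D.read (inp X.1 Y.1) i j t = D.mem (inp X.1 X.1) (cell X t) ::
              D.read (inp X.1 X.1) i j t
          rw [h2]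
          exact congrArg (· :: _) e2
    obtain ⟨-, h2⟩ := key T le_rfl
    have hXX : D.out i j (D.read (inp X.1 X.1) i j T) = true := by
      rw [hD (inp X.1 X.1) (by rw [sum_card_replace F hij (hP1 X) (hP2 X), hF]) i j]
      simp only [inp]
      rw [replace_left F hij, replace_right]
      exact Finset.disjoint_sdiff
    rw [← h2, hD (inp X.1 Y.1) (by rw [sum_card_replace F hij (hP1 X) (hP2 Y), hF]) i j] at hXX
    simp only [inp] at hXX
    rw [replace_left F hij, replace_right] at hXX
    have hsub : X.1 ⊆ Y.1 := by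
      intro a ha
      by_contra hna
      have haQ : a ∈ Q := (Finset.mem_powersetCard.1 X.2).1 ha
      exact (Finset.disjoint_left.1 hXX ha) (Finset.mem_sdiff.2 ⟨haQ, hna⟩)
    apply Subtype.ext
    exact Finset.eq_of_subset_of_card_le hsub (by rw [hP1 X, hP1 Y])
  have hcard := Fintype.card_le_of_injective lab hinj
  rw [Fintype.card_coe, Finset.card_powersetCard, hQ, Fintype.card_fun, Fintype.card_fin,
    Fintype.card_fin] at hcard
  omega

theorem Simple.mono {D : DataStructure M u S W} {F : Fin M → Finset (Fin u)} {i j : Fin M}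
    {c : Fin S} {K K' : ℕ} (h : D.Simple F i j c K) (hK : K ≤ K') : D.Simple F i j c K' := by
  obtain ⟨A, B, h1, h2⟩ := h
  refine ⟨fun l => if h : l.1 < K then A ⟨l.1, h⟩ else ∅,
    fun l => if h : l.1 < K then B ⟨l.1, h⟩ else ∅, ?_, ?_⟩
  · intro X Y hX hY
    obtain ⟨l, hl⟩ := h1 X Y hX hY
    refine ⟨⟨l.1, by omega⟩, ?_⟩
    simp only [l.2, dif_pos]
    exact hl
  · intro l X hX X' hX' Y hY Y' hY'
    by_cases hl : l.1 < K
    · simp only [hl, dif_pos] at hX hX' hY hY'
      exact h2 _ X hX X' hX' Y hY Y' hY'
    · simp only [hl, dif_neg, not_false_eq_true, Set.mem_empty_iff_false] at hX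

theorem two_pow_le_choose {s : ℕ} (hs : 1 ≤ s) : 2 ^ s ≤ Nat.choose (2 * s) s := by
  have h := Nat.four_pow_le_two_mul_self_mul_centralBinom s hs
  rw [Nat.centralBinom_eq_two_mul_choose] at h
  have h2 : 2 * s ≤ 2 ^ s := by
    clear h
    induction s with
    | zero => omega
    | succ n ih =>
      rcases Nat.eq_zero_or_pos n with hn | hn
      · subst hn; norm_num
      · have := ih hn
        rw [pow_succ]
        omega
  have h3 : 2 ^ s * 2 ^ s ≤ 2 ^ s * Nat.choose (2 * s) s := by
    calc 2 ^ s * 2 ^ s = 4 ^ s := by rw [← mul_pow]; norm_num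
      _ ≤ 2 * s * Nat.choose (2 * s) s := h
      _ ≤ 2 ^ s * Nat.choose (2 * s) s := Nat.mul_le_mul_right _ h2
  exact Nat.le_of_mul_le_mul_left h3 (by positivity)

/-- the base input: `m` sets of size `s`, one set of size `N - m * s` -/
theorem exists_base {N m s : ℕ} (hm : m < M) (hms : m * s ≤ N) (hu : N ≤ u) (hm0 : 0 < m) :
    ∃ F : Fin M → Finset (Fin u), ∑ i, (F i).card = N ∧ ∀ i : Fin M, i.1 < m → (F i).card = s := by
  classical
  have hsub : ∀ z : ℕ, z ≤ N → ∃ A : Finset (Fin u), A.card = z := by
    intro z hz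
    obtain ⟨A, -, hA⟩ := Finset.exists_subset_card_eq
      (s := (Finset.univ : Finset (Fin u))) (n := z) (by simpa using hz.trans hu)
    exact ⟨A, hA⟩
  have hsN : s ≤ N := le_trans (Nat.le_mul_of_pos_left s hm0) hms
  obtain ⟨A, hA⟩ := hsub s hsN
  obtain ⟨B, hB⟩ := hsub (N - m * s) (by omega)
  refine ⟨fun i => if i.1 < m then A else if i.1 = m then B else ∅, ?_, ?_⟩
  · have h1 : ∀ i : Fin M, (if i.1 < m then A else if i.1 = m then B else ∅ : Finset (Fin u)).card =
        (fun n : ℕ => if n < m then s else if n = m then N - m * s else 0) i.1 := by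
      intro i
      simp only
      split_ifs <;> simp [hA, hB]
    rw [Finset.sum_congr rfl fun i _ => h1 i,
      Fin.sum_univ_eq_sum_range (fun n : ℕ => if n < m then s else if n = m then N - m * s else 0) M]
    have h2 : ∑ n ∈ Finset.range (m + 1), (if n < m then s else if n = m then N - m * s else 0) =
        ∑ n ∈ Finset.range M, (if n < m then s else if n = m then N - m * s else 0) := by
      apply Finset.sum_subset
      · intro a ha
        simp only [Finset.mem_range] at ha ⊢
        omega
      · intro a _ ha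
        simp only [Finset.mem_range] at ha
        rw [if_neg (by omega), if_neg (by omega)]
    rw [← h2, Finset.sum_range_succ, Finset.sum_congr rfl
      (fun n hn => if_pos (Finset.mem_range.1 hn))]
    simp
    omega
  · intro i hi
    simp only [hi, if_true, hA]

/-- the trade-off for structures all words of which are simple for all but few pairs -/
theorem tradeoff (D : DataStructure M u S W) {N T r k : ℕ} (hD : D.Solves N T) (hNM : N ≤ M)
    (hNu : N ≤ u) (hT : 1 ≤ T) (hr : 1 ≤ r) (hk : 1 ≤ k)
    (hloc : ∀ F : Fin M → Finset (Fin u), ∑ i, (F i).card = N → ∀ c : Fin S,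
      ∃ R : Finset (Fin M), R.card ≤ r ∧ ∀ i j : Fin M, i ≠ j → ¬ (i ∈ R ∧ j ∈ R) →
        D.Simple F i j c (2 ^ k)) :
    N ^ 2 ≤ 64 * S * (r * k * T) ^ 2 := by
  classical
  rcases Nat.eq_zero_or_pos N with hN | hN
  · subst hN; simp
  have hS : 1 ≤ S := by
    have i : Fin M := ⟨0, by omega⟩
    exact Fin.pos (D.probe i i [])
  have hkT : 1 ≤ k * T := Nat.mul_pos hk hT
  set s := k * T + 1 with hs
  have hs2 : s ≤ 2 * (k * T) := by omega
  by_cases hsmall : N < 4 * s
  · have h1 : N ≤ 8 * (k * T) := by omega
    have h2 : 8 * (k * T) ≤ 8 * (r * k * T) := by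
      have : k * T ≤ r * (k * T) := Nat.le_mul_of_pos_left _ hr
      calc 8 * (k * T) ≤ 8 * (r * (k * T)) := by omega
        _ = 8 * (r * k * T) := by ring
    calc N ^ 2 ≤ (8 * (r * k * T)) ^ 2 := Nat.pow_le_pow_left (h1.trans h2) 2
      _ = 64 * 1 * (r * k * T) ^ 2 := by ring
      _ ≤ 64 * S * (r * k * T) ^ 2 := by gcongr
  push Not at hsmall
  have hs0 : 0 < s := by omega
  set m := N / s with hm
  have hm4 : 4 ≤ m := by
    rw [hm, Nat.le_div_iff_mul_le hs0]; exact hsmall
  have hmN : m * s ≤ N := Nat.div_mul_le_self N s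
  have hNm : N < (m + 1) * s := by
    rw [hm]; exact Nat.lt_mul_of_div_lt (Nat.lt_succ_self _) hs0
  have hmM : m < M := by
    have : m * 2 ≤ m * s := Nat.mul_le_mul_left m (by omega)
    omega
  obtain ⟨F, hF, hFs⟩ := exists_base (M := M) (u := u) hmM hmN hNu (by omega)
  choose R hRr hR using hloc F hF
  have hsu : 2 * s ≤ u := by omega
  have hK : (2 ^ k) ^ T < Nat.choose (2 * s) s := by
    rw [← pow_mul]
    calc 2 ^ (k * T) < 2 ^ s := Nat.pow_lt_pow_right (by norm_num) (by omega)
      _ ≤ _ := two_pow_le_choose hs0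
  let I : Finset (Fin M) := Finset.univ.filter fun i => i.1 < m
  have hI : I.card = m := by
    have h1 : I = (Finset.univ : Finset (Fin m)).map (Fin.castLEEmb hmM.le) := by
      ext i
      simp only [I, Finset.mem_filter, Finset.mem_univ, true_and, Finset.mem_map]
      constructor
      · intro h
        exact ⟨⟨i.1, h⟩, Fin.ext rfl⟩
      · rintro ⟨a, ha⟩
        rw [← ha]
        exact a.2
    rw [h1, Finset.card_map, Finset.card_univ, Fintype.card_fin]
  have hcover : I.offDiag ⊆ Finset.univ.biUnion fun c : Fin S => R c ×ˢ R c := by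
    rintro ⟨a, b⟩ hab
    rw [Finset.mem_offDiag] at hab
    obtain ⟨ha, hb, hab⟩ := hab
    simp only [I, Finset.mem_filter, Finset.mem_univ, true_and] at ha hb
    obtain ⟨c, hc⟩ := entangled D hD F hF hab (hFs a ha) (hFs b hb) hsu hK
    simp only [Finset.mem_biUnion, Finset.mem_univ, true_and, Finset.mem_product]
    refine ⟨c, ?_⟩
    by_contra hcon
    exact hc (hR c a b hab hcon)
  have hcount : m * m - m ≤ S * r ^ 2 := by
    have h1 := Finset.card_le_card hcover
    rw [Finset.offDiag_card, hI] at h1
    refine h1.trans ((Finset.card_biUnion_le).trans ?_)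
    calc ∑ c : Fin S, (R c ×ˢ R c).card ≤ ∑ _c : Fin S, r ^ 2 := by
          refine Finset.sum_le_sum fun c _ => ?_
          rw [Finset.card_product, sq]
          exact Nat.mul_le_mul (hRr c) (hRr c)
      _ = S * r ^ 2 := by simp
  have hm1 : ∀ m : ℕ, 4 ≤ m → (m + 1) ^ 2 ≤ 3 * (m * m - m) := by
    intro m hm4
    obtain ⟨n, rfl⟩ : ∃ n, m = n + 4 := ⟨m - 4, by omega⟩
    have : (n + 4) * (n + 4) - (n + 4) = n ^ 2 + 7 * n + 12 := by
      have h : (n + 4) * (n + 4) = (n ^ 2 + 7 * n + 12) + (n + 4) := by ring
      rw [h, Nat.add_sub_cancel]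
    rw [this]
    nlinarith
  calc N ^ 2 ≤ ((m + 1) * s) ^ 2 := Nat.pow_le_pow_left hNm.le 2
    _ = (m + 1) ^ 2 * s ^ 2 := by ring
    _ ≤ (3 * (m * m - m)) * (2 * (k * T)) ^ 2 :=
        Nat.mul_le_mul (hm1 m hm4) (Nat.pow_le_pow_left hs2 2)
    _ ≤ (3 * (S * r ^ 2)) * (2 * (k * T)) ^ 2 := by gcongr
    _ = 12 * S * (r * k * T) ^ 2 := by ring
    _ ≤ 64 * S * (r * k * T) ^ 2 := by gcongr; norm_num

/-- Words which depend on all but `r` sets only through sketches of `k` bits are simple for all pairs
outside of a set of `r` indices. -/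
theorem Local.simple {w : ℕ} {D : DataStructure M u S (2 ^ w)} {c : Fin S} {r k : ℕ}
    {F : Fin M → Finset (Fin u)} (h : D.Local (fun i => (F i).card) c r k) :
    ∃ R : Finset (Fin M), R.card ≤ r ∧ ∀ i j : Fin M, i ≠ j → ¬ (i ∈ R ∧ j ∈ R) →
      D.Simple F i j c (2 ^ (k + w)) := by
  classical
  obtain ⟨R, g, hR, hg⟩ := h
  refine ⟨R, hR, fun i j hij hn => ?_⟩
  have hcast : 2 ^ k * 2 ^ w ≤ 2 ^ (k + w) := (pow_add 2 k w).ge
  have e : Fin (2 ^ k) × Fin (2 ^ w) ≃ Fin (2 ^ k * 2 ^ w) := finProdFinEquiv
  by_cases hi : i ∈ R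
  · have hj : j ∉ R := fun hj => hn ⟨hi, hj⟩
    refine Simple.mono ?_ hcast
    -- changing the set number `j` to one with the same sketch does not change the word
    have hinv : ∀ X Y Y' : Finset (Fin u), X.card = (F i).card → Y.card = (F j).card →
        Y'.card = (F j).card → g j Y = g j Y' →
        D.mem (replace F i j X Y) c = D.mem (replace F i j X Y') c := by
      intro X Y Y' hX hY hY' hYY
      refine hg _ _ (card_replace F hij hX hY) (card_replace F hij hX hY') ?_ ?_
      · intro l hl
        have hlj : l ≠ j := fun h => hj (h ▸ hl)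
        simp only [replace, Function.update_of_ne hlj]
      · intro l _
        by_cases hlj : l = j
        · subst hlj
          rw [replace_right, replace_right, hYY]
        · simp only [replace, Function.update_of_ne hlj]
    refine ⟨fun l => {X | ∃ Y, Y.card = (F j).card ∧ g j Y = (e.symm l).1 ∧
        D.mem (replace F i j X Y) c = (e.symm l).2}, fun l => {Y | g j Y = (e.symm l).1}, ?_, ?_⟩
    · intro X Y hX hY
      refine ⟨e (g j Y, D.mem (replace F i j X Y) c), ⟨Y, hY, ?_, ?_⟩, ?_⟩ <;> simp
    · rintro l X ⟨Z, hZ, hZ1, hZ2⟩ X' ⟨Z', hZ', hZ1', hZ2'⟩ Y hY Y' hY' cX cX' cY cY'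
      simp only [Set.mem_ofPred_eq] at hY hY'
      rw [hinv X Y Z cX cY hZ (hY.trans hZ1.symm), hinv X' Y' Z' cX' cY' hZ' (hY'.trans hZ1'.symm),
        hZ2, hZ2']
  · refine Simple.mono ?_ hcast
    have hinv : ∀ X X' Y : Finset (Fin u), X.card = (F i).card → X'.card = (F i).card →
        Y.card = (F j).card → g i X = g i X' →
        D.mem (replace F i j X Y) c = D.mem (replace F i j X' Y) c := by
      intro X X' Y hX hX' hY hXX
      refine hg _ _ (card_replace F hij hX hY) (card_replace F hij hX' hY) ?_ ?_
      · intro l hl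
        have hli : l ≠ i := fun h => hi (h ▸ hl)
        by_cases hlj : l = j
        · subst hlj; rw [replace_right, replace_right]
        · rw [replace_of_ne F hli hlj, replace_of_ne F hli hlj]
      · intro l _
        by_cases hlj : l = j
        · subst hlj; rw [replace_right, replace_right]
        by_cases hli : l = i
        · subst hli
          rw [replace_left F hij, replace_left F hij, hXX]
        · rw [replace_of_ne F hli hlj, replace_of_ne F hli hlj]
    refine ⟨fun l => {X | g i X = (e.symm l).1}, fun l => {Y | ∃ X, X.card = (F i).card ∧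
        g i X = (e.symm l).1 ∧ D.mem (replace F i j X Y) c = (e.symm l).2}, ?_, ?_⟩
    · intro X Y hX hY
      refine ⟨e (g i X, D.mem (replace F i j X Y) c), ?_, ⟨X, hX, ?_, ?_⟩⟩ <;> simp
    · rintro l X hX X' hX' Y ⟨Z, hZ, hZ1, hZ2⟩ Y' ⟨Z', hZ', hZ1', hZ2'⟩ cX cX' cY cY'
      simp only [Set.mem_ofPred_eq] at hX hX'
      rw [hinv X Z Y cX hZ cY (hX.trans hZ1.symm), hinv X' Z' Y' cX' hZ' cY' (hX'.trans hZ1'.symm),
        hZ2, hZ2']

/-- (1) In every data structure for SetDisjointness every pair `i, j` of sets of size `s` is entangled,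
whatever the other sets are: there is a word which is not `K`-simple for this pair, if
`K ^ T < (2 s choose s)`.
(2) If at every input every word is `2 ^ k`-simple for all pairs outside of a set of at most `r`
indices, then `S ≥ (N / (8 r k T)) ^ 2`.
(3) If every word (of `w` bits) depends on all but `r` sets only through sketches of `k` bits, then
`S ≥ (N / (8 r (k + w) T)) ^ 2`. -/
theorem result :
    (∀ (M u S W N T s K : ℕ) (D : DataStructure M u S W), D.Solves N T →
      ∀ F : Fin M → Finset (Fin u), ∑ i, (F i).card = N → ∀ i j : Fin M, i ≠ j →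
        (F i).card = s → (F j).card = s → 2 * s ≤ u → K ^ T < Nat.choose (2 * s) s →
        ∃ c : Fin S, ¬ D.Simple F i j c K) ∧
    (∀ (M u S W N T r k : ℕ) (D : DataStructure M u S W), D.Solves N T → N ≤ M → N ≤ u →
      1 ≤ T → 1 ≤ r → 1 ≤ k →
      (∀ F : Fin M → Finset (Fin u), ∑ i, (F i).card = N → ∀ c : Fin S,
        ∃ R : Finset (Fin M), R.card ≤ r ∧ ∀ i j : Fin M, i ≠ j → ¬ (i ∈ R ∧ j ∈ R) →
          D.Simple F i j c (2 ^ k)) →
      N ^ 2 ≤ 64 * S * (r * k * T) ^ 2) ∧
    (∀ (M u S w N T r k : ℕ) (D : DataStructure M u S (2 ^ w)), D.Solves N T → N ≤ M → N ≤ u →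
      1 ≤ T → 1 ≤ r → 1 ≤ w →
      (∀ z : Fin M → ℕ, ∑ i, z i = N → ∀ c : Fin S, D.Local z c r k) →
      N ^ 2 ≤ 64 * S * (r * (k + w) * T) ^ 2) := by
  refine ⟨?_, ?_, ?_⟩
  · intro M u S W N T s K D hD F hF i j hij hi hj hu hK
    exact entangled D hD F hF hij hi hj hu hK
  · intro M u S W N T r k D hD hNM hNu hT hr hk hloc
    exact tradeoff D hD hNM hNu hT hr hk hloc
  · intro M u S w N T r k D hD hNM hNu hT hr hw hloc
    exact tradeoff D hD hNM hNu hT hr (by omega) fun F hF c => Local.simple (hloc _ hF c)

end Pool.Agent.Results.MP_90de28_lc.LocalWords
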