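import Pool.Agent.Lib_helper53.OFP.Main

/-!
# Set disjointness: structures with less than quadratic space read two light words

A data structure for SetDisjointness with `T = O(1)` probes and words of polylogarithmic size that uses
less than `N ^ 2 / polylog` words has inputs on which `N ^ 2 / polylog` of the queries read two
different light words each, that is, words which are read by at most `N / polylog` queries. The same
holds for the words outside of any set of `N * polylog` words, which may depend on the input.

Idea. The inputs: `m = N / polylog` fixed sets `A c`, the graphs of the polynomials `c` of degree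
less than `k` over `t` points of a prime field with `q` elements (`t`, `q` polylogarithmic,
`m = q ^ k`), and `m` random sets `B j` of density `1 / (2 * t)`. A quarter of all pairs is disjoint.
Assume that few queries read two words outside of `Near`. Level by level one finds `O(m)` words in
`Near` which contain all near words of a polylogarithmic part of the disjoint pairs `(c, j)`, for
most `j` (`level`, `levels`). Two sets `A c` meet in less than `k` points, and few of them have
half of their points in a given sparse set, so that, if there are less than `m ^ 2 / polylog` words,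
each of the following `O(m)` far words can be chosen in such a way that it certifies many new facts
`e ∉ B j` (`farPhase`). The contents of these `O(m)` words is a short certificate for so many facts
that it exists only for few inputs (`counting`), a contradiction.
-/

set_option autoImplicit false

namespace Pool.Agent.Results.MP_90de28_lc.OneFarProbe

open Finset

/-- A data structure for families of `M` sets with elements in `Fin u`, in the cell probe model: a
memory of `S` words with values in `Fin W`, which may depend in any way on the input, and for every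
query `(i, j)` the address of the next word, which may depend on the words read before, and the
answer. -/
structure DataStructure (M u S W : ℕ) where
  mem : (Fin M → Finset (Fin u)) → Fin S → Fin W
  probe : Fin M → Fin M → List (Fin W) → Fin S
  out : Fin M → Fin M → List (Fin W) → Bool

variable {M u S W : ℕ}

/-- the contents of the first `t` words that the query `(i, j)` reads on the input `F`, the last one
first -/
def DataStructure.read (D : DataStructure M u S W) (F : Fin M → Finset (Fin u)) (i j : Fin M) :
    ℕ → List (Fin W)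
  | 0 => []
  | t + 1 => D.mem F (D.probe i j (D.read F i j t)) :: D.read F i j t

/-- `D` solves SetDisjointness for all inputs of total size `N`, every query reads `T` words. -/
def DataStructure.Solves (D : DataStructure M u S W) (N T : ℕ) : Prop :=
  ∀ F : Fin M → Finset (Fin u), ∑ i, (F i).card = N → ∀ i j : Fin M,
    (D.out i j (D.read F i j T) = true ↔ Disjoint (F i) (F j))

/-- the word (its address) that the query `(i, j)` reads in step `s` on the input `F`,
`s = 0, …, T - 1` -/
def DataStructure.word (D : DataStructure M u S W) (F : Fin M → Finset (Fin u)) (i j : Fin M)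
    (s : ℕ) : Fin S :=
  D.probe i j (D.read F i j s)

/-- the number of the queries `(i, j)` of two non-empty sets which read the word `v` on the input
`F` -/
noncomputable def DataStructure.load (D : DataStructure M u S W) (F : Fin M → Finset (Fin u))
    (T : ℕ) (v : Fin S) : ℕ :=
  {p : Fin M × Fin M | (F p.1).Nonempty ∧ (F p.2).Nonempty ∧
    ∃ s < T, D.word F p.1 p.2 s = v}.ncard

/-- the number of the queries `(i, j)` which read on the input `F` two different words with the
property `P` -/
noncomputable def DataStructure.readTwo (D : DataStructure M u S W) (F : Fin M → Finset (Fin u))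
    (T : ℕ) (P : Fin S → Prop) : ℕ :=
  {p : Fin M × Fin M | ∃ s < T, ∃ s' < T, D.word F p.1 p.2 s ≠ D.word F p.1 p.2 s' ∧
    P (D.word F p.1 p.2 s) ∧ P (D.word F p.1 p.2 s')}.ncard

theorem read_eq_run (D : DataStructure M u S W) (F : Fin M → Finset (Fin u)) (i j : Fin M) :
    ∀ s, D.read F i j s = OneFar.run (D.probe i j) (D.mem F) s
  | 0 => rfl
  | s + 1 => by
    simp only [DataStructure.read, OneFar.run]
    rw [read_eq_run D F i j s]

/-- few words are read by many queries -/
theorem few_heavy (D : DataStructure M u S W) (F : Fin M → Finset (Fin u)) {N T : ℕ}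
    (hF : ∑ i, (F i).card = N) (H : Finset (Fin S)) {x : ℝ} (hx : ∀ v ∈ H, x ≤ D.load F T v) :
    (H.card : ℝ) * x ≤ T * N ^ 2 := by
  classical
  let Q : Finset (Fin M × Fin M) := Finset.univ.filter fun p => (F p.1).Nonempty ∧ (F p.2).Nonempty
  have hQ : Q.card ≤ N ^ 2 := by
    let I : Finset (Fin M) := Finset.univ.filter fun i => (F i).Nonempty
    have h1 : I.card ≤ N := by
      rw [← hF, Finset.card_filter]
      refine Finset.sum_le_sum fun i _ => ?_
      split_ifs with h
      · exact Finset.card_pos.2 h
      · exact Nat.zero_le _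
    have h2 : Q = I ×ˢ I := by
      ext p
      simp [Q, I]
    rw [h2, Finset.card_product, sq]
    exact Nat.mul_le_mul h1 h1
  have hload : ∀ v, D.load F T v =
      (Q.filter fun p => ∃ s < T, D.word F p.1 p.2 s = v).card := by
    intro v
    rw [DataStructure.load, ← Set.ncard_coe_finset]
    congr 1
    ext p
    simp [Q, and_assoc]
  have hsum : ∑ v ∈ H, D.load F T v ≤ T * N ^ 2 := by
    calc ∑ v ∈ H, D.load F T v =
          ∑ v ∈ H, ∑ p ∈ Q, if ∃ s < T, D.word F p.1 p.2 s = v then 1 else 0 := by
            refine Finset.sum_congr rfl fun v _ => ?_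
            rw [hload, Finset.card_filter]
      _ = ∑ p ∈ Q, ∑ v ∈ H, if ∃ s < T, D.word F p.1 p.2 s = v then 1 else 0 := Finset.sum_comm
      _ ≤ ∑ _p ∈ Q, T := by
            refine Finset.sum_le_sum fun p _ => ?_
            rw [← Finset.card_filter]
            calc _ ≤ ((Finset.range T).image fun s => D.word F p.1 p.2 s).card := by
                  refine Finset.card_le_card fun v hv => ?_
                  obtain ⟨s, hs, hv⟩ := (Finset.mem_filter.1 hv).2
                  exact Finset.mem_image.2 ⟨s, Finset.mem_range.2 hs, hv⟩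
              _ ≤ (Finset.range T).card := Finset.card_image_le
              _ = T := Finset.card_range T
      _ = Q.card * T := by rw [Finset.sum_const, smul_eq_mul]
      _ ≤ N ^ 2 * T := Nat.mul_le_mul_right _ hQ
      _ = T * N ^ 2 := Nat.mul_comm _ _
  calc (H.card : ℝ) * x = ∑ _v ∈ H, x := by rw [Finset.sum_const, nsmul_eq_mul]
    _ ≤ ∑ v ∈ H, (D.load F T v : ℝ) := Finset.sum_le_sum hx
    _ = ((∑ v ∈ H, D.load F T v : ℕ) : ℝ) := by push_cast; rfl
    _ ≤ ((T * N ^ 2 : ℕ) : ℝ) := by exact_mod_cast hsum
    _ = T * N ^ 2 := by push_cast; rfl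

/-- For all `a` and `T` there are `c` and `N₀` with the following property. Let `D` be a data
structure with `S` words of at most `(log N) ^ a` bits which solves SetDisjointness with `T` adaptive
probes for all inputs of total size `N ≥ N₀`. If `S < N ^ 2 / (log N) ^ c`, then there is an input `F` of
total size `N` such that
(1) for every set `Near` of at most `N * (log N) ^ a` words, at least `N ^ 2 / (log N) ^ c` queries
read two different words outside of `Near`;
(2) at least `N ^ 2 / (log N) ^ c` queries read two different words each of which is read by at most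
`N / (log N) ^ a` queries of non-empty sets. -/
theorem result (a T : ℕ) : ∃ c N₀ : ℕ, ∀ N ≥ N₀, ∀ (M u S W : ℕ) (D : DataStructure M u S W),
    N ≤ M → N ≤ u → D.Solves N T → (W : ℝ) ≤ 2 ^ (Real.log N ^ a) →
    (S : ℝ) < N ^ 2 / Real.log N ^ c →
    ∃ F : Fin M → Finset (Fin u), ∑ i, (F i).card = N ∧
      (∀ Near : Finset (Fin S), (Near.card : ℝ) ≤ N * Real.log N ^ a →
        (N ^ 2 / Real.log N ^ c : ℝ) ≤ D.readTwo F T fun v => v ∉ Near) ∧
      (N ^ 2 / Real.log N ^ c : ℝ) ≤
        D.readTwo F T fun v => (D.load F T v : ℝ) ≤ N / Real.log N ^ a := by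
  classical
  obtain ⟨c, N₁, hmain⟩ := OneFar.main_nat (a + 1) T
  refine ⟨2 * c, max N₁ ⌈Real.exp (T + 2)⌉₊, ?_⟩
  intro N hN M u S W D hNM hNu hD hW hS
  have hN1 : N₁ ≤ N := le_trans (le_max_left _ _) hN
  have hN2 : Real.exp (T + 2) ≤ N :=
    (Nat.le_ceil _).trans (by exact_mod_cast le_trans (le_max_right _ _) hN)
  have hNpos : (0 : ℝ) < N := (Real.exp_pos _).trans_le hN2
  have hN0 : N ≠ 0 := by
    rintro rfl
    simp at hNpos
  obtain ⟨l, hl⟩ : ∃ l, l = Real.log N := ⟨_, rfl⟩
  obtain ⟨L, hL⟩ : ∃ L, L = Nat.log 2 N + 1 := ⟨_, rfl⟩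
  rw [← hl] at hW hS ⊢
  have hlT : (T : ℝ) + 2 ≤ l := by
    rw [hl, Real.le_log_iff_exp_le hNpos]
    exact hN2
  have hT0 : (0 : ℝ) ≤ T := Nat.cast_nonneg T
  have hl2 : 2 ≤ l := by linarith
  have hl0 : 0 < l := by linarith
  have hl1 : 1 ≤ l := by linarith
  have hlog2 : Real.log 2 ≤ 1 := by
    have := Real.log_two_lt_d9
    linarith
  have hlL : l ≤ L := by
    have h1 : (N : ℝ) ≤ 2 ^ L := by
      have : N < 2 ^ L := by rw [hL]; exact Nat.lt_pow_succ_log_self (by norm_num) N
      exact_mod_cast this.le
    calc l ≤ Real.log (2 ^ L) := by rw [hl]; exact Real.log_le_log hNpos h1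
      _ = L * Real.log 2 := Real.log_pow _ _
      _ ≤ L * 1 := by gcongr
      _ = L := mul_one _
  have hLl : (L : ℝ) ≤ l ^ 2 := by
    have h1 : (2 : ℝ) ^ (L - 1) ≤ N := by
      have : 2 ^ (L - 1) ≤ N := by rw [hL, Nat.add_sub_cancel]; exact Nat.pow_log_le_self 2 hN0
      exact_mod_cast this
    have h2 : ((L : ℝ) - 1) * Real.log 2 ≤ l := by
      have h3 := Real.log_le_log (by positivity) h1
      rw [Real.log_pow, ← hl] at h3
      have h4 : ((L - 1 : ℕ) : ℝ) = (L : ℝ) - 1 := by
        rw [Nat.cast_sub (by omega)]; simp
      rwa [h4] at h3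
    have h5 : (1 : ℝ) / 2 ≤ Real.log 2 := by
      have := Real.log_two_gt_d9
      linarith
    have h6 : (1 : ℝ) ≤ L := by
      have : 1 ≤ L := by omega
      exact_mod_cast this
    have h7 : ((L : ℝ) - 1) * (2 / 3) ≤ l := by
      have h8 : (2 : ℝ) / 3 ≤ Real.log 2 := by
        have := Real.log_two_gt_d9
        linarith
      calc ((L : ℝ) - 1) * (2 / 3) ≤ ((L : ℝ) - 1) * Real.log 2 := by
            apply mul_le_mul_of_nonneg_left h8; linarith
        _ ≤ l := h2
    nlinarith
  have hLc : ((L : ℝ)) ^ c ≤ l ^ (2 * c) := by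
    rw [pow_mul]
    exact pow_le_pow_left₀ (by positivity) hLl c
  have hlpow : 0 < l ^ (2 * c) := by positivity
  -- an input for which every set `Near` has many bad queries
  have key : ∃ F : Fin M → Finset (Fin u), ∑ i, (F i).card = N ∧ ∀ Near : Finset (Fin S),
      Near.card ≤ N * L ^ (a + 1) → (N ^ 2 / l ^ (2 * c) : ℝ) ≤ D.readTwo F T fun v => v ∉ Near := by
    by_contra hcon
    push Not at hcon
    have h1 := hmain N hN1 M u S W D.mem D.probe D.out hNM hNu (by
      intro F hF i j
      rw [← read_eq_run]
      exact hD F hF i j) (by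
      rw [← hL]
      have h2 : (W : ℝ) ≤ ((2 ^ L ^ (a + 1) : ℕ) : ℝ) := by
        refine hW.trans ?_
        push_cast
        rw [← Real.rpow_natCast 2 (L ^ (a + 1))]
        refine Real.rpow_le_rpow_of_exponent_le (by norm_num) ?_
        push_cast
        calc l ^ a ≤ l ^ (a + 1) := pow_le_pow_right₀ hl1 (by omega)
          _ ≤ (L : ℝ) ^ (a + 1) := pow_le_pow_left₀ hl0.le hlL _
      exact_mod_cast h2) (by
      intro F hF
      obtain ⟨Near, hNear, hlt⟩ := hcon F hF
      refine ⟨Near, by rw [← hL]; exact hNear, ?_⟩
      intro B hB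
      rw [← hL]
      have h2 : (B.card : ℝ) ≤ D.readTwo F T fun v => v ∉ Near := by
        have h3 : B.card ≤ D.readTwo F T fun v => v ∉ Near := by
          rw [DataStructure.readTwo, ← Set.ncard_coe_finset]
          refine Set.ncard_le_ncard ?_ (Set.toFinite _)
          intro p hp
          obtain ⟨s, hs, s', hs', h4, h5, h6⟩ := hB p hp
          rw [← read_eq_run] at h4 h6
          rw [← read_eq_run] at h5 h6
          exact ⟨s, hs, s', hs', h6, h4, h5⟩
        exact_mod_cast h3
      have h3 : ((B.card * L ^ c : ℕ) : ℝ) ≤ ((N ^ 2 : ℕ) : ℝ) := by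
        push_cast
        calc (B.card : ℝ) * (L : ℝ) ^ c ≤ (N ^ 2 / l ^ (2 * c)) * l ^ (2 * c) := by
              gcongr
              exact h2.trans hlt.le
          _ = N ^ 2 := div_mul_cancel₀ _ hlpow.ne'
      exact_mod_cast h3)
    rw [← hL] at h1
    have h2 : (N : ℝ) ^ 2 ≤ S * (L : ℝ) ^ c := by exact_mod_cast h1
    have h3 : (S : ℝ) * l ^ (2 * c) < N ^ 2 := by
      rwa [lt_div_iff₀ hlpow] at hS
    have h4 : (S : ℝ) * (L : ℝ) ^ c ≤ S * l ^ (2 * c) := by gcongr
    linarith
  obtain ⟨F, hF, hNear⟩ := key
  refine ⟨F, hF, ?_, ?_⟩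
  · intro Near hN'
    refine hNear Near ?_
    have h1 : (Near.card : ℝ) ≤ ((N * L ^ (a + 1) : ℕ) : ℝ) := by
      push_cast
      refine hN'.trans ?_
      gcongr
      calc l ^ a ≤ l ^ (a + 1) := pow_le_pow_right₀ hl1 (by omega)
        _ ≤ (L : ℝ) ^ (a + 1) := pow_le_pow_left₀ hl0.le hlL _
    exact_mod_cast h1
  · let H : Finset (Fin S) := Finset.univ.filter fun v => ¬ (D.load F T v : ℝ) ≤ N / l ^ a
    have h1 := few_heavy (T := T) D F hF H (x := N / l ^ a) (by
      intro v hv
      exact (not_le.1 (Finset.mem_filter.1 hv).2).le)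
    have h2 : (H.card : ℝ) ≤ N * l ^ (a + 1) := by
      have hla : 0 < l ^ a := by positivity
      have h3 : (H.card : ℝ) * N ≤ T * N ^ 2 * l ^ a := by
        calc (H.card : ℝ) * N = H.card * (N / l ^ a) * l ^ a := by field_simp
          _ ≤ T * N ^ 2 * l ^ a := by gcongr
      have h4 : (H.card : ℝ) * N ≤ (N * l ^ (a + 1)) * N := by
        calc (H.card : ℝ) * N ≤ T * N ^ 2 * l ^ a := h3
          _ ≤ l * N ^ 2 * l ^ a := by gcongr; linarith
          _ = (N * l ^ (a + 1)) * N := by ring
      exact le_of_mul_le_mul_right h4 hNpos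
    have h3 : H.card ≤ N * L ^ (a + 1) := by
      have h4 : (H.card : ℝ) ≤ ((N * L ^ (a + 1) : ℕ) : ℝ) := by
        push_cast
        refine h2.trans ?_
        gcongr
      exact_mod_cast h4
    have h4 := hNear H h3
    have h5 : (D.readTwo F T fun v => v ∉ H) =
        D.readTwo F T fun v => (D.load F T v : ℝ) ≤ N / l ^ a := by
      have : (fun v => v ∉ H) = fun v => (D.load F T v : ℝ) ≤ N / l ^ a := by
        funext v
        simp [H]
      rw [this]
    rwa [h5] at h4

end Pool.Agent.Results.MP_90de28_lc.OneFarProbe
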